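import Pool.Agent.Helper95.HS.GoalsA

/-! # HS, packet CMP: comparison of two invariant metrics -/

set_option autoImplicit false

open Complex Metric Set Filter Topology MeasureTheory
open scoped ContDiff ComplexConjugate ComplexOrder Manifold Matrix

namespace Pool.Agent.Helper89.HS

open Pool.Agent.Helper95.Lin Pool.Agent.Helper16.Abund Pool.Agent.Helper10.SP
  Pool.Agent.Helper57.HS Pool.Agent.Helper95.HS

universe u

theorem star_dot_hermi {n : ℕ} (A : Matrix (Fin n) (Fin n) ℂ) (y : Fin n → ℂ) :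
    star y ⬝ᵥ (A *ᵥ y) = hermi A (star y) (star y) := by
  simp only [dotProduct, Matrix.mulVec, hermi, Pi.star_apply, Finset.mul_sum]
  refine Finset.sum_congr rfl fun i _ => Finset.sum_congr rfl fun j _ => ?_
  have h : conj (star (y j)) = y j := by simp
  rw [h]
  ring

theorem hermi_star {n : ℕ} (A : Matrix (Fin n) (Fin n) ℂ) (e : Fin n → ℂ) :
    hermi A e e = star (star e) ⬝ᵥ (A *ᵥ (star e)) := by
  rw [star_dot_hermi, star_star]

theorem hermi_pos {n : ℕ} {A : Matrix (Fin n) (Fin n) ℂ} (hA : A.PosDef) {e : Fin n → ℂ}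
    (he : e ≠ 0) : 0 < hermi A e e := by
  rw [hermi_star]
  exact hA.dotProduct_mulVec_pos (star_ne_zero.2 he)

theorem hermi_sub {n : ℕ} (A B : Matrix (Fin n) (Fin n) ℂ) (c : ℂ) (e f : Fin n → ℂ) :
    hermi (A - c • B) e f = hermi A e f - c * hermi B e f := by
  simp only [hermi, Matrix.sub_apply, Matrix.smul_apply, smul_eq_mul, Finset.mul_sum]
  rw [← Finset.sum_sub_distrib]
  refine Finset.sum_congr rfl fun i _ => ?_
  rw [← Finset.sum_sub_distrib]
  refine Finset.sum_congr rfl fun j _ => ?_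
  ring

theorem hermi_smul {n : ℕ} (A : Matrix (Fin n) (Fin n) ℂ) (t : ℝ) (e : Fin n → ℂ) :
    hermi A ((t : ℂ) • e) ((t : ℂ) • e) = ((t ^ 2 : ℝ) : ℂ) * hermi A e e := by
  simp only [hermi, Pi.smul_apply, smul_eq_mul, Finset.mul_sum, map_mul, Complex.conj_ofReal]
  refine Finset.sum_congr rfl fun i _ => Finset.sum_congr rfl fun j _ => ?_
  push_cast
  ring

theorem continuousOn_hermi {n : ℕ} {T : Set (Cn n)} {H : Cn n → Matrix (Fin n) (Fin n) ℂ}
    (hH : ∀ i j, ContDiffOn ℝ ∞ (fun x => H x i j) T) (C : Set (Cn n)) (hC : C ⊆ T)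
    (S : Set (Cn n)) :
    ContinuousOn (fun p : Cn n × Cn n => (hermi (H p.1) p.2 p.2).re) (C ×ˢ S) := by
  unfold hermi
  refine Complex.continuous_re.comp_continuousOn ?_
  refine continuousOn_finsetSum _ fun i _ => continuousOn_finsetSum _ fun j _ => ?_
  have h1 : ContinuousOn (fun p : Cn n × Cn n => H p.1 i j) (C ×ˢ S) :=
    ((hH i j).continuousOn.mono hC).comp continuousOn_fst (fun p hp => hp.1)
  have h2 : Continuous (fun p : Cn n × Cn n => p.2 i) := (continuous_apply i).comp continuous_snd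
  have h3 : Continuous (fun p : Cn n × Cn n => conj (p.2 j)) :=
    Complex.continuous_conj.comp ((continuous_apply j).comp continuous_snd)
  exact (h1.mul h2.continuousOn).mul h3.continuousOn

/-- **CMP** -/
theorem cmp : S_CMP.{u} := by
  intro n T G _ R H Q hH hQ
  obtain ⟨C, hCT, hC, hcov⟩ := hH.et.coc
  have hK : IsCompact (C ×ˢ sphere (0 : Cn n) 1) := hC.prod (isCompact_sphere _ _)
  have hne : ∀ p ∈ C ×ˢ sphere (0 : Cn n) 1, p.2 ≠ 0 := by
    rintro p ⟨_, hp⟩ h0
    rw [h0] at hp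
    simp at hp
  have hHp : ∀ p ∈ C ×ˢ sphere (0 : Cn n) 1, 0 < (hermi (H p.1) p.2 p.2).re := fun p hp =>
    (Complex.pos_iff.1 (hermi_pos (hH.posDef _ (hCT hp.1)) (hne p hp))).1
  have hQp : ∀ p ∈ C ×ˢ sphere (0 : Cn n) 1, 0 < (hermi (Q p.1) p.2 p.2).re := fun p hp =>
    (Complex.pos_iff.1 (hermi_pos (hQ.posDef _ (hCT hp.1)) (hne p hp))).1
  have hcont : ContinuousOn (fun p : Cn n × Cn n =>
      (hermi (Q p.1) p.2 p.2).re / (hermi (H p.1) p.2 p.2).re) (C ×ˢ sphere (0 : Cn n) 1) :=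
    (continuousOn_hermi hQ.smooth C hCT _).div (continuousOn_hermi hH.smooth C hCT _)
      (fun p hp => (hHp p hp).ne')
  obtain ⟨c, hc, hmin⟩ : ∃ c : ℝ, 0 < c ∧ ∀ p ∈ C ×ˢ sphere (0 : Cn n) 1,
      c * (hermi (H p.1) p.2 p.2).re ≤ (hermi (Q p.1) p.2 p.2).re := by
    rcases (C ×ˢ sphere (0 : Cn n) 1).eq_empty_or_nonempty with he | hne'
    · refine ⟨1, one_pos, fun p hp => ?_⟩
      rw [he] at hp
      exact absurd hp (notMem_empty _)
    · obtain ⟨p0, hp0, hp0min⟩ := hK.exists_isMinOn hne' hcont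
      refine ⟨_, div_pos (hQp p0 hp0) (hHp p0 hp0), fun p hp => ?_⟩
      have h1 := hp0min hp
      exact (le_div_iff₀ (hHp p hp)).1 h1
  -- homogeneity
  have hall : ∀ x ∈ C, ∀ e : Cn n,
      c * (hermi (H x) e e).re ≤ (hermi (Q x) e e).re := by
    intro x hx e
    rcases eq_or_ne e 0 with rfl | he
    · simp [hermi]
    · have hn : 0 < ‖e‖ := norm_pos_iff.2 he
      have h1 := hmin (x, ((‖e‖⁻¹ : ℝ) : ℂ) • e) ⟨hx, by
        rw [mem_sphere_zero_iff_norm, norm_smul, Complex.norm_real, norm_inv, norm_norm,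
          inv_mul_cancel₀ hn.ne']⟩
      simp only [hermi_smul, Complex.re_ofReal_mul] at h1
      have h2 : 0 < (‖e‖⁻¹) ^ 2 := by positivity
      have h3 : (‖e‖⁻¹) ^ 2 * (c * (hermi (H x) e e).re) ≤
          (‖e‖⁻¹) ^ 2 * (hermi (Q x) e e).re := by linarith
      exact le_of_mul_le_mul_left h3 h2
  refine ⟨c, hc, fun x hx => ?_⟩
  obtain ⟨γ, y, hy, hR⟩ := hcov x hx
  obtain ⟨τ, U, W, hU, hW, hxU, hyW, hUT, hWT, hdiff, hinj, hmaps, hdet, hiff⟩ :=
    hH.et.loc γ x y hR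
  have hArr : Arr R U τ := ⟨hU, hdiff, γ, fun x' hx' =>
    (hiff x' hx' (τ x') (hmaps hx')).2 rfl⟩
  have hτx : τ x = y := ((hiff x hxU y hyW).1 hR).symm
  have hbound : ∀ e : Cn n, c * (hermi (H x) e e).re ≤ (hermi (Q x) e e).re := by
    intro e
    have h1 := hH.inv U τ hArr x hxU e e
    have h2 := hQ.inv U τ hArr x hxU e e
    rw [← h1, ← h2, hτx]
    exact hall y hy _
  have hHx := hH.posDef x hx
  have hQx := hQ.posDef x hx
  have hherm : (Q x - ((c : ℝ) : ℂ) • H x).IsHermitian := by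
    refine hQx.isHermitian.sub ?_
    rw [Matrix.IsHermitian, Matrix.conjTranspose_smul, hHx.isHermitian.eq]
    congr 1
    exact Complex.conj_ofReal c
  refine Matrix.PosSemidef.of_dotProduct_mulVec_nonneg hherm fun w => ?_
  rw [star_dot_hermi, hermi_sub]
  have hreal : ∀ A : Matrix (Fin n) (Fin n) ℂ, A.PosDef → ∀ e : Cn n, (hermi A e e).im = 0 := by
    intro A hA e
    rcases eq_or_ne e 0 with rfl | he
    · simp [hermi]
    · exact (Complex.pos_iff.1 (hermi_pos hA he)).2.symm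
  have h1 := hbound (star w)
  have h2 := hreal _ hHx (star w)
  have h3 := hreal _ hQx (star w)
  rw [Complex.nonneg_iff]
  constructor
  · rw [Complex.sub_re, Complex.re_ofReal_mul]
    linarith
  · rw [Complex.sub_im, Complex.im_ofReal_mul, h2, h3]
    simp

end Pool.Agent.Helper89.HS
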