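import Pool.Agent.Helper95.HS.GoalsA

/-! # HS, packet CLA: normalized potentials with bounded densities are comparable -/

set_option autoImplicit false

open Complex Metric Set Filter Topology MeasureTheory
open scoped ContDiff ComplexConjugate ComplexOrder Manifold Matrix

namespace Pool.Agent.Helper89.HS

open Pool.Agent.Helper95.Lin Pool.Agent.Helper16.Abund Pool.Agent.Helper10.SP
  Pool.Agent.Helper57.HS Pool.Agent.Helper95.HS

universe u

theorem chi_mono {n : ℕ} {T : Set (Cn n)} {G : Type u} [Group G]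
    {R : G → Cn n → Cn n → Prop} {H : Cn n → Matrix (Fin n) (Fin n) ℂ} {a a' : ℝ}
    {χ : Cn n → Matrix (Fin n) (Fin n) ℂ} (h : Chi T R H a χ) (haa : a ≤ a') :
    Chi T R H a' χ := by
  refine ⟨h.ket, h.chf, h.inv, fun x hx => ?_⟩
  have h1 := h.le x hx
  have h2 : (((a' - a : ℝ) : ℂ) • H x).PosSemidef := by
    refine (h.ket.posDef x hx).posSemidef.smul ?_
    rw [Complex.zero_le_real]
    linarith
  have h3 : ((a' : ℂ) • H x - χ x) = (((a' - a : ℝ) : ℂ) • H x) + ((a : ℂ) • H x - χ x) := by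
    push_cast
    rw [sub_smul]
    abel
  rw [h3]
  exact h2.add h1

/-- **CLA** -/
theorem cla (hVENV : S_VENV.{u}) (hUPV : S_UPV.{u}) : S_CLA.{u} := by
  intro n hn T G _ R H hH κ hκ a K
  obtain ⟨C, hC⟩ := hUPV hn T R H hH κ hκ (max a 1) K
  refine ⟨C + 1, fun χ φ₁ φ₂ hχ h1 h2 hd1 hd2 x hx => ?_⟩
  have hχ' : Chi T R H (max a 1) χ := chi_mono hχ (le_max_left _ _)
  obtain ⟨v, hv⟩ := hVENV T R H (max a 1) χ φ₁ hχ' (le_max_right _ _) h1.pot
  have e1 := hC χ φ₁ v hχ' h1 hv hd1 x hx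
  have e2 := hC χ φ₂ v hχ' h2 hv hd2 x hx
  have f1 := hv.max φ₁ h1.pot h1.le x hx
  have f2 := hv.max φ₂ h2.pot h2.le x hx
  rw [abs_le]
  constructor <;> linarith

end Pool.Agent.Helper89.HS
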