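import Pool.Agent.Helper36.HS.GoalsL
import Pool.Agent.Helper9.SP.ReglA

/-! # HS, packet CRP: continuous representatives -/

set_option autoImplicit false

open Complex Metric Set Filter Topology MeasureTheory
open scoped ContDiff ComplexConjugate ComplexOrder Manifold

namespace Pool.Agent.Helper89.HS

open Pool.Agent.Helper95.Lin Pool.Agent.Helper16.Abund Pool.Agent.Helper10.SP
  Pool.Agent.Helper36.HS
open Pool.Agent.Helper9.SP (cd_contDiff cdb_contDiff cd_sub cdb_sub)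
open Pool.Agent.Helper67.Lin (norm_lt_of_mol)

theorem dz_contDiff {n : ℕ} {g : Cn n → ℂ} (hg : ContDiff ℝ ∞ g) (a : Fin n × Bool) :
    ContDiff ℝ ∞ (dz a g) := by
  unfold dz
  split_ifs
  · exact cdb_contDiff hg _
  · exact cd_contDiff hg _

theorem dz_sub {n : ℕ} {f g : Cn n → ℂ} (hf : ContDiff ℝ ∞ f) (hg : ContDiff ℝ ∞ g)
    (a : Fin n × Bool) : dz a (fun y => f y - g y) = fun y => dz a f y - dz a g y := by
  funext x
  have h1 : DifferentiableAt ℝ f x := (hf.differentiable (by simp)) x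
  have h2 : DifferentiableAt ℝ g x := (hg.differentiable (by simp)) x
  unfold dz
  split_ifs
  · exact cdb_sub h1 h2 _
  · exact cd_sub h1 h2 _

theorem Dw_sub {n : ℕ} (α : List (Fin n × Bool)) : ∀ {f g : Cn n → ℂ}, ContDiff ℝ ∞ f →
    ContDiff ℝ ∞ g → Dw α (fun y => f y - g y) = fun y => Dw α f y - Dw α g y := by
  induction α with
  | nil => intro f g _ _; rfl
  | cons a α ih =>
    intro f g hf hg
    show Dw α (dz a fun y => f y - g y) = fun y => Dw α (dz a f) y - Dw α (dz a g) y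
    rw [dz_sub hf hg a]
    exact ih (dz_contDiff hf a) (dz_contDiff hg a)

theorem mollc_zero_off {n : ℕ} {u : Cn n → ℂ} {K : Set (Cn n)} (hu : ∀ x ∉ K, u x = 0) {ε : ℝ}
    (hε : 0 < ε) (hε1 : ε ≤ 1) {x : Cn n} (hx : x ∉ cthickening 1 K) : mollc u ε x = 0 := by
  unfold mollc
  refine integral_eq_zero_of_ae (Eventually.of_forall fun y => ?_)
  show u (x - y) * (mol n ε y : ℂ) = 0
  by_cases hy : mol n ε y = 0
  · rw [hy]; simp
  · have h1 : ‖y‖ < ε := norm_lt_of_mol hε hy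
    rw [hu, zero_mul]
    intro hK
    apply hx
    apply mem_cthickening_of_dist_le x (x - y) 1 K hK
    rw [dist_eq_norm]
    simp only [sub_sub_cancel]
    linarith

theorem hc_zero {n : ℕ} {m : ℕ} {u : Cn n → ℂ} (h : HC m u) :
    MemLp u 2 volume ∧ ∃ K, IsCompact K ∧ ∀ x ∉ K, u x = 0 := by
  cases m with
  | zero => exact h
  | succ m => exact h.1

theorem sq_integrable {n : ℕ} {f : Cn n → ℂ} (hf : MemLp f 2 volume) :
    Integrable fun x => ‖f x‖ ^ 2 := by
  have := hf.integrable_norm_pow (by norm_num)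
  simpa using this

/-- `∫ |a - b|² ≤ 2 ∫ |a - c|² + 2 ∫ |b - c|²`. -/
theorem int_tri {n : ℕ} {a b c : Cn n → ℂ} (ha : MemLp a 2 volume) (hb : MemLp b 2 volume)
    (hc : MemLp c 2 volume) : ∫ x, ‖a x - b x‖ ^ 2 ≤
      2 * (∫ x, ‖a x - c x‖ ^ 2) + 2 * ∫ x, ‖b x - c x‖ ^ 2 := by
  have i1 : Integrable fun x => 2 * ‖a x - c x‖ ^ 2 := (sq_integrable (ha.sub hc)).const_mul 2
  have i2 : Integrable fun x => 2 * ‖b x - c x‖ ^ 2 := (sq_integrable (hb.sub hc)).const_mul 2
  have i3 : Integrable fun x => ‖a x - b x‖ ^ 2 := sq_integrable (ha.sub hb)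
  rw [← integral_const_mul, ← integral_const_mul, ← integral_add i1 i2]
  refine integral_mono i3 (i1.add i2)
    fun x => ?_
  show ‖a x - b x‖ ^ 2 ≤ 2 * ‖a x - c x‖ ^ 2 + 2 * ‖b x - c x‖ ^ 2
  have h1 : ‖a x - b x‖ ≤ ‖a x - c x‖ + ‖b x - c x‖ := by
    have := norm_sub_le (a x - c x) (b x - c x)
    simpa using this
  nlinarith [sq_nonneg (‖a x - c x‖ - ‖b x - c x‖), norm_nonneg (a x - b x),
    norm_nonneg (a x - c x), norm_nonneg (b x - c x)]

/-- **CRP** -/
theorem crp (hMOL2 : S_MOL2) (hSOB : S_SOB) (hHCM : S_HCM) : S_CRP := by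
  intro n u hu
  obtain ⟨huL, K, hK, huK⟩ := hc_zero hu
  set K' := cthickening 1 K with hK'def
  have hK' : IsCompact K' := hK.cthickening
  obtain ⟨B, hB, hBS⟩ := hSOB K' hK'
  -- the functions v α
  have hv : ∀ α : List (Fin n × Bool), ∃ v : Cn n → ℂ, α.length = 2 * n → MemLp v 2 volume ∧
      ∀ ε : ℝ, 0 < ε → Dw α (mollc u ε) = mollc v ε := by
    intro α
    by_cases hα : α.length = 2 * n
    · obtain ⟨v, h1, _, h2⟩ := hHCM (2 * n) u hu α hα.le
      exact ⟨v, fun _ => ⟨h1, h2⟩⟩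
    · exact ⟨0, fun h => absurd h hα⟩
  choose v hv using hv
  have hsm : ∀ ε : ℝ, 0 < ε → ContDiff ℝ ∞ (mollc u ε) := fun ε hε => ((hMOL2 u huL).1 ε hε).1
  have hmL : ∀ ε : ℝ, 0 < ε → MemLp (mollc u ε) 2 volume :=
    fun ε hε => ((hMOL2 u huL).1 ε hε).2.1
  -- eventually the derivatives are near
  have hev : ∀ δ : ℝ, 0 < δ → ∀ᶠ ε in 𝓝[>] (0 : ℝ), ∀ α : List (Fin n × Bool),
      α.length = 2 * n → ∫ x, ‖mollc (v α) ε x - v α x‖ ^ 2 ≤ δ := by
    intro δ hδ
    have hfin : {α : List (Fin n × Bool) | α.length = 2 * n}.Finite := List.finite_length_eq _ _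
    refine (Filter.eventually_all_finite hfin).2 fun α hα => ?_
    have h1 := (hMOL2 (v α) (hv α hα).1).2
    exact (h1.eventually (gt_mem_nhds hδ)).mono fun ε h => h.le
  set s : ℕ → Cn n → ℂ := fun j => mollc u (1 / ((j : ℝ) + 1)) with hs
  have hpos : ∀ j : ℕ, (0 : ℝ) < 1 / ((j : ℝ) + 1) := fun j => by positivity
  have hle1 : ∀ j : ℕ, 1 / ((j : ℝ) + 1) ≤ 1 := fun j => by
    rw [div_le_one (by positivity)]
    have : (0 : ℝ) ≤ j := Nat.cast_nonneg j
    linarith
  have htend : Tendsto (fun j : ℕ => 1 / ((j : ℝ) + 1)) atTop (𝓝[>] (0 : ℝ)) :=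
    tendsto_nhdsWithin_iff.2 ⟨tendsto_one_div_add_atTop_nhds_zero_nat,
      Eventually.of_forall fun j => hpos j⟩
  have hs0 : ∀ j, ∀ x ∉ K', s j x = 0 := fun j x hx => mollc_zero_off huK (hpos j) (hle1 j) hx
  -- uniformly Cauchy
  have hcau : ∀ η : ℝ, 0 < η → ∃ N : ℕ, ∀ i ≥ N, ∀ j ≥ N, ∀ x, ‖s i x - s j x‖ ^ 2 ≤ η := by
    intro η hη
    have hδ : (0 : ℝ) < η / (4 * B) := by positivity
    obtain ⟨N, hN⟩ := eventually_atTop.1 (htend.eventually (hev _ hδ))
    refine ⟨N, fun i hi j hj x => ?_⟩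
    have h1 : ContDiff ℝ ∞ fun x => s i x - s j x := (hsm _ (hpos i)).sub (hsm _ (hpos j))
    have h2 := hBS (fun x => s i x - s j x) (η / B) h1 (fun x hx => by
      show s i x - s j x = 0
      rw [hs0 i x hx, hs0 j x hx, sub_zero]) (fun α hα => by
        rw [Dw_sub α (hsm _ (hpos i)) (hsm _ (hpos j)), (hv α hα).2 _ (hpos i),
          (hv α hα).2 _ (hpos j)]
        have hvL := (hv α hα).1
        have e1 := int_tri ((hMOL2 _ hvL).1 _ (hpos i)).2.1 ((hMOL2 _ hvL).1 _ (hpos j)).2.1 hvL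
        have e2 := hN i hi α hα
        have e3 := hN j hj α hα
        have e4 : η / B = 2 * (η / (4 * B)) + 2 * (η / (4 * B)) := by
          field_simp; ring
        rw [e4]
        linarith) x
    have h3 : B * (η / B) = η := by field_simp
    rw [h3] at h2
    exact h2
  have hcau' : ∀ η : ℝ, 0 < η → ∃ N : ℕ, ∀ i ≥ N, ∀ j ≥ N, ∀ x, ‖s i x - s j x‖ ≤ η := by
    intro η hη
    obtain ⟨N, hN⟩ := hcau (η ^ 2) (by positivity)
    refine ⟨N, fun i hi j hj x => ?_⟩
    exact abs_le_of_sq_le_sq' (hN i hi j hj x) hη.le |>.2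
  -- the limit
  have hlim : ∀ x, ∃ c, Tendsto (fun j => s j x) atTop (𝓝 c) := by
    intro x
    apply cauchySeq_tendsto_of_complete
    rw [Metric.cauchySeq_iff]
    intro ε hε
    obtain ⟨N, hN⟩ := hcau' (ε / 2) (by positivity)
    refine ⟨N, fun i hi j hj => ?_⟩
    rw [dist_eq_norm]
    have := hN i hi j hj x
    linarith
  choose g hg using hlim
  have hgle : ∀ η : ℝ, 0 < η → ∃ N : ℕ, ∀ i ≥ N, ∀ x, ‖s i x - g x‖ ≤ η := by
    intro η hη
    obtain ⟨N, hN⟩ := hcau' η hη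
    refine ⟨N, fun i hi x => ?_⟩
    have h1 : Tendsto (fun j => ‖s i x - s j x‖) atTop (𝓝 ‖s i x - g x‖) :=
      ((tendsto_const_nhds).sub (hg x)).norm
    exact le_of_tendsto h1 (eventually_atTop.2 ⟨N, fun j hj => hN i hi j hj x⟩)
  have hunif : TendstoUniformly s g atTop := by
    rw [Metric.tendstoUniformly_iff]
    intro ε hε
    obtain ⟨N, hN⟩ := hgle (ε / 2) (by positivity)
    refine eventually_atTop.2 ⟨N, fun i hi x => ?_⟩
    rw [dist_comm, dist_eq_norm]
    have := hN i hi x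
    linarith
  have hgc : Continuous g :=
    hunif.continuous (Frequently.of_forall fun j => (hsm _ (hpos j)).continuous)
  have hg0 : ∀ x ∉ K', g x = 0 := by
    intro x hx
    have h1 : Tendsto (fun j => s j x) atTop (𝓝 0) := by
      have : (fun j => s j x) = fun _ => (0 : ℂ) := by funext j; exact hs0 j x hx
      rw [this]
      exact tendsto_const_nhds
    exact tendsto_nhds_unique (hg x) h1
  have hgs : HasCompactSupport g := HasCompactSupport.intro hK' hg0
  refine ⟨g, hgc, hgs, ?_⟩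
  have hgL : MemLp g 2 volume := hgc.memLp_of_hasCompactSupport hgs
  -- the integral of |u - g|²
  have hfinite : volume K' ≠ ⊤ := hK'.measure_lt_top.ne
  have hsg : ∀ η : ℝ, 0 < η → ∃ N : ℕ, ∀ i ≥ N, ∫ x, ‖g x - s i x‖ ^ 2 ≤ η * volume.real K' := by
    intro η hη
    obtain ⟨N, hN⟩ := hgle (Real.sqrt η) (Real.sqrt_pos.2 hη)
    refine ⟨N, fun i hi => ?_⟩
    have h1 : ∫ x, ‖g x - s i x‖ ^ 2 = ∫ x in K', ‖g x - s i x‖ ^ 2 := by
      symm
      apply setIntegral_eq_integral_of_forall_compl_eq_zero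
      intro x hx
      rw [hg0 x hx, hs0 i x hx]
      simp
    rw [h1]
    have h2 : ∫ x in K', ‖g x - s i x‖ ^ 2 ≤ ∫ _ in K', η := by
      refine setIntegral_mono_on (sq_integrable (hgL.sub (hmL _ (hpos i)))).integrableOn
        (integrableOn_const hfinite) hK'.measurableSet fun x _ => ?_
      have h3 := hN i hi x
      rw [norm_sub_rev] at h3
      calc ‖g x - s i x‖ ^ 2 ≤ Real.sqrt η ^ 2 := by gcongr
        _ = η := Real.sq_sqrt hη.le
    refine h2.trans ?_
    rw [setIntegral_const, smul_eq_mul, mul_comm]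
  have hzero : ∫ x, ‖u x - g x‖ ^ 2 = 0 := by
    refine le_antisymm ?_ (integral_nonneg fun x => by positivity)
    refine le_of_forall_pos_le_add fun η hη => ?_
    rw [zero_add]
    have hvol : 0 ≤ volume.real K' := measureReal_nonneg
    obtain ⟨N, hN⟩ := hsg (η / (4 * (volume.real K' + 1))) (by positivity)
    have hu2 := (htend.eventually ((hMOL2 u huL).2.eventually (gt_mem_nhds
      (show (0 : ℝ) < η / 4 by positivity))))
    obtain ⟨N', hN'⟩ := eventually_atTop.1 hu2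
    set i := max N N' with hi
    have e1 := hN i (le_max_left _ _)
    have e2 : ∫ x, ‖s i x - u x‖ ^ 2 < η / 4 := hN' i (le_max_right _ _)
    have e3 := int_tri huL hgL (hmL _ (hpos i))
    have e4 : ∫ x, ‖u x - s i x‖ ^ 2 = ∫ x, ‖s i x - u x‖ ^ 2 := by
      refine integral_congr_ae (Eventually.of_forall fun x => ?_)
      show ‖u x - s i x‖ ^ 2 = ‖s i x - u x‖ ^ 2
      rw [norm_sub_rev]
    have e5 : η / (4 * (volume.real K' + 1)) * volume.real K' ≤ η / 4 := by
      rw [div_mul_eq_mul_div, div_le_div_iff₀ (by positivity) (by norm_num)]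
      nlinarith
    have e6 : ∫ x, ‖u x - g x‖ ^ 2 ≤ 2 * (∫ x, ‖u x - s i x‖ ^ 2) +
        2 * ∫ x, ‖g x - s i x‖ ^ 2 := e3
    rw [e4] at e6
    linarith
  have hae := (integral_eq_zero_iff_of_nonneg (fun x => by positivity)
    (sq_integrable (huL.sub hgL))).1 hzero
  filter_upwards [hae] with x hx
  have h1 : ‖u x - g x‖ ^ 2 = 0 := hx
  have h2 : ‖u x - g x‖ = 0 := by
    exact pow_eq_zero_iff (two_ne_zero) |>.1 h1
  exact sub_eq_zero.1 (norm_eq_zero.1 h2)

end Pool.Agent.Helper89.HS
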